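import Mathlib

/-!
# MP_360586_lc : a 10-argument AF whose implicit conflicts cannot be made explicit (stable semantics)
-/

namespace Pool.Agent.Results.MP_360586_lc.TenArguments

/-- An argumentation framework over the universe `U`: a set `A` of arguments and an attack
relation `R ⊆ A × A`. -/
structure AF (U : Type) where
  A : Set U
  R : Set (U × U)
  sub : R ⊆ A ×ˢ A

variable {U : Type}

/-- `E` is conflict-free in `F`. -/
def ConflictFree (F : AF U) (E : Set U) : Prop := ∀ a ∈ E, ∀ b ∈ E, (a, b) ∉ F.R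

/-- The range `E⁺` of `E`. -/
def range (F : AF U) (E : Set U) : Set U := E ∪ {a | a ∈ F.A ∧ ∃ e ∈ E, (e, a) ∈ F.R}

/-- The set of stable extensions of `F`. -/
def st (F : AF U) : Set (Set U) := {E | E ⊆ F.A ∧ ConflictFree F E ∧ range F E = F.A}

/-- `Pairs_X`. -/
def Pairs (X : Set (Set U)) : Set (U × U) := {p | ∃ E ∈ X, ({p.1, p.2} : Set U) ⊆ E}

/-- `F` is conflict-explicit under stable semantics. -/
def ConflictExplicit (F : AF U) : Prop :=
  ∀ a ∈ F.A, ∀ b ∈ F.A, (a, b) ∉ Pairs (st F) → (a, b) ∈ F.R ∨ (b, a) ∈ F.R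

/-- `att a` is the bitmask of the attackers of `a` in the example. -/
def att (a : ℕ) : ℕ := [170, 333, 74, 7, 480, 849, 52, 280, 690, 288].getD a 0

/-- `attacks m a`: the argument `m` attacks the argument `a` in the example. -/
def attacks (m a : ℕ) : Bool := Nat.testBit (att a) m

/-- The example: arguments `0, …, 9`, attacks given by `attacks`. -/
def F₀ : AF ℕ where
  A := {n | n < 10}
  R := {p | p.1 < 10 ∧ p.2 < 10 ∧ attacks p.1 p.2 = true}
  sub := fun _ hp => ⟨hp.1, hp.2.1⟩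

/-- masks of the stable extensions -/
def S : List ℕ := [40, 162, 164, 261, 321, 328, 533, 530, 536, 584, 644]

/-- The set with mask `m`. -/
def toSet (m : ℕ) : Set ℕ := {i | i < 10 ∧ Nat.testBit m i = true}

def compat (a b : ℕ) : Bool := S.any fun s => Nat.testBit s a && Nat.testBit s b

def fb (a₁ a₂ m a : ℕ) : Bool :=
  (a == a₁ && Nat.testBit 642 m) || (a == a₂ && Nat.testBit 577 m)

theorem S_lt : ∀ s ∈ S, s < 1024 := by decide

theorem fin_stable : ∀ s ∈ S, (∀ a : Fin 10, ∀ m : Fin 10, Nat.testBit s a = true →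
    Nat.testBit s m = true → attacks m a = false) ∧
    (∀ a : Fin 10, Nat.testBit s a = false → ∃ m : Fin 10, Nat.testBit s m = true ∧
      attacks m a = true) := by decide +kernel

theorem all_stable : ∀ b : Fin 10 → Bool,
    (∀ a : Fin 10, ∀ m : Fin 10, b a = true → b m = true → attacks m a = false) →
    (∀ a : Fin 10, b a = false → ∃ m : Fin 10, b m = true ∧ attacks m a = true) →
    ∃ s ∈ S, ∀ i : Fin 10, b i = Nat.testBit s i := by decide +kernel

theorem K_compat : ∀ a b : Fin 10,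
    (Nat.testBit 642 a = true ∧ Nat.testBit 642 b = true) ∨
    (Nat.testBit 577 a = true ∧ Nat.testBit 577 b = true) → compat a b = true := by
  decide +kernel

theorem K_not : ∀ s ∈ S, (∃ i : Fin 10, Nat.testBit s i ≠ Nat.testBit 642 i) ∧
    (∃ i : Fin 10, Nat.testBit s i ≠ Nat.testBit 577 i) := by decide +kernel

theorem final : ∀ a₁ a₂ : Fin 10, Nat.testBit 642 a₁ = false → Nat.testBit 577 a₂ = false →
    (∃ x y : Fin 10, compat x y = false ∧ fb a₁ a₂ x y = true ∧ fb a₁ a₂ y x = true) ∨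
    (∃ s ∈ S, ∃ a : Fin 10, Nat.testBit s a = false ∧ ∀ m : Fin 10, Nat.testBit s m = true →
      compat m a = false → fb a₁ a₂ m a = true) := by decide +kernel


theorem mem_toSet (m i : ℕ) : i ∈ toSet m ↔ i < 10 ∧ Nat.testBit m i = true := Iff.rfl

theorem st_F₀_iff (E : Set ℕ) : E ∈ st F₀ ↔ ∃ s ∈ S, E = toSet s := by
  classical
  constructor
  · rintro ⟨hsub, hcf, hr⟩
    have key := all_stable (fun i => decide ((i : ℕ) ∈ E)) (by
      intro a m ha hm
      have ha' : (a : ℕ) ∈ E := by simpa using ha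
      have hm' : (m : ℕ) ∈ E := by simpa using hm
      have h := hcf _ hm' _ ha'
      by_contra hne
      apply h
      refine ⟨m.2, a.2, ?_⟩
      simpa using hne) (by
      intro a ha
      have ha' : (a : ℕ) ∉ E := by simpa using ha
      have haA : (a : ℕ) ∈ F₀.A := a.2
      rw [← hr] at haA
      rcases haA with h | ⟨_, e, he, hatt⟩
      · exact absurd h ha'
      · refine ⟨⟨e, hatt.1⟩, ?_, hatt.2.2⟩
        simpa using he)
    obtain ⟨s, hs, hb⟩ := key
    refine ⟨s, hs, ?_⟩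
    ext i
    constructor
    · intro hi
      have hi10 : i < 10 := hsub hi
      refine ⟨hi10, ?_⟩
      have := hb ⟨i, hi10⟩
      rw [← this]
      simpa using hi
    · rintro ⟨hi10, hi⟩
      have := hb ⟨i, hi10⟩
      simp only [hi] at this
      simpa using this
  · rintro ⟨s, hs, rfl⟩
    obtain ⟨h1, h2⟩ := fin_stable s hs
    refine ⟨fun i hi => hi.1, ?_, ?_⟩
    · rintro a ⟨ha, has⟩ b ⟨hb, hbs⟩ ⟨_, _, hatt⟩
      have := h1 ⟨b, hb⟩ ⟨a, ha⟩ hbs has
      change attacks a b = false at this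
      change attacks a b = true at hatt
      rw [this] at hatt
      exact absurd hatt (by decide)
    · ext i
      constructor
      · rintro (h | h)
        · exact h.1
        · exact h.1
      · intro hi
        have hi10 : i < 10 := hi
        cases hb : Nat.testBit s i with
        | true => exact Or.inl ⟨hi10, hb⟩
        | false =>
          obtain ⟨m, hm, hatt⟩ := h2 ⟨i, hi10⟩ hb
          exact Or.inr ⟨hi, m, ⟨m.2, hm⟩, m.2, hi10, hatt⟩

theorem compat_iff (a b : Fin 10) : compat a b = true ↔ ((a : ℕ), (b : ℕ)) ∈ Pairs (st F₀) := by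
  unfold compat Pairs
  rw [List.any_eq_true]
  constructor
  · rintro ⟨s, hs, h⟩
    rw [Bool.and_eq_true] at h
    refine ⟨toSet s, (st_F₀_iff _).2 ⟨s, hs, rfl⟩, ?_⟩
    rintro x (rfl | rfl)
    · exact ⟨a.2, h.1⟩
    · exact ⟨b.2, h.2⟩
  · rintro ⟨E, hE, hsub⟩
    obtain ⟨s, hs, rfl⟩ := (st_F₀_iff _).1 hE
    refine ⟨s, hs, ?_⟩
    rw [Bool.and_eq_true]
    exact ⟨(hsub (Or.inl rfl)).2, (hsub (Or.inr rfl)).2⟩

theorem no_explicit : ¬ ∃ F' : AF ℕ, F'.A = F₀.A ∧ ConflictExplicit F' ∧ st F' = st F₀ := by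
  rintro ⟨F', hA, hce, hst⟩
  have hmemA : ∀ i : ℕ, i ∈ F'.A ↔ i < 10 := fun i => by rw [hA]; exact Iff.rfl
  -- compatible arguments do not attack each other
  have hcomp : ∀ a b : Fin 10, compat a b = true → ((a : ℕ), (b : ℕ)) ∉ F'.R := by
    intro a b h
    rw [compat_iff, ← hst] at h
    obtain ⟨E, hE, hsub⟩ := h
    exact hE.2.1 _ (hsub (Or.inl rfl)) _ (hsub (Or.inr rfl))
  -- incompatible arguments attack each other in some direction
  have hinc : ∀ a b : Fin 10, compat a b = false →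
      ((a : ℕ), (b : ℕ)) ∈ F'.R ∨ ((b : ℕ), (a : ℕ)) ∈ F'.R := by
    intro a b h
    apply hce _ ((hmemA _).2 a.2) _ ((hmemA _).2 b.2)
    rw [hst, ← compat_iff, h]
    decide
  -- the two missing cliques are not stable
  have hK : ∀ M : ℕ, (∀ a b : Fin 10, Nat.testBit M a = true → Nat.testBit M b = true →
      compat a b = true) → (∀ s ∈ S, ∃ i : Fin 10, Nat.testBit s i ≠ Nat.testBit M i) →
      ∃ a : Fin 10, Nat.testBit M a = false ∧ ∀ m : Fin 10, Nat.testBit M m = true →
        ((m : ℕ), (a : ℕ)) ∉ F'.R := by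
    intro M h1 h2
    by_contra hcon
    push Not at hcon
    have hM : toSet M ∈ st F' := by
      refine ⟨fun i hi => (hmemA i).2 hi.1, ?_, ?_⟩
      · rintro a ⟨ha, haM⟩ b ⟨hb, hbM⟩
        exact hcomp ⟨a, ha⟩ ⟨b, hb⟩ (h1 ⟨a, ha⟩ ⟨b, hb⟩ haM hbM)
      · ext i
        constructor
        · rintro (h | h)
          · exact (hmemA i).2 h.1
          · exact h.1
        · intro hi
          have hi10 : i < 10 := (hmemA i).1 hi
          cases hb : Nat.testBit M i with
          | true => exact Or.inl ⟨hi10, hb⟩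
          | false =>
            obtain ⟨m, hm, hatt⟩ := hcon ⟨i, hi10⟩ hb
            exact Or.inr ⟨hi, m, ⟨m.2, hm⟩, hatt⟩
    rw [hst, st_F₀_iff] at hM
    obtain ⟨s, hs, hsM⟩ := hM
    obtain ⟨i, hi⟩ := h2 s hs
    apply hi
    have h3 : (i : ℕ) ∈ toSet M ↔ (i : ℕ) ∈ toSet s := by rw [hsM]
    rw [mem_toSet, mem_toSet] at h3
    have h4 : (Nat.testBit M i = true) ↔ (Nat.testBit s i = true) := by
      constructor
      · intro h; exact (h3.1 ⟨i.2, h⟩).2
      · intro h; exact (h3.2 ⟨i.2, h⟩).2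
    cases h5 : Nat.testBit s i <;> cases h6 : Nat.testBit M i <;> simp_all
  obtain ⟨a₁, ha₁, hf₁⟩ := hK 642 (fun a b h h' => K_compat a b (Or.inl ⟨h, h'⟩))
    (fun s hs => (K_not s hs).1)
  obtain ⟨a₂, ha₂, hf₂⟩ := hK 577 (fun a b h h' => K_compat a b (Or.inr ⟨h, h'⟩))
    (fun s hs => (K_not s hs).2)
  have hfb : ∀ m a : Fin 10, fb a₁ a₂ m a = true → ((m : ℕ), (a : ℕ)) ∉ F'.R := by
    intro m a h
    unfold fb at h
    rw [Bool.or_eq_true, Bool.and_eq_true, Bool.and_eq_true, beq_iff_eq, beq_iff_eq] at h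
    rcases h with ⟨h, h'⟩ | ⟨h, h'⟩
    · rw [h]; exact hf₁ m h'
    · rw [h]; exact hf₂ m h'
  rcases final a₁ a₂ ha₁ ha₂ with ⟨x, y, hxy, h1, h2⟩ | ⟨s, hs, a, has, hall⟩
  · rcases hinc x y hxy with h | h
    · exact hfb _ _ h1 h
    · exact hfb _ _ h2 h
  · have hE : toSet s ∈ st F' := by rw [hst]; exact (st_F₀_iff _).2 ⟨s, hs, rfl⟩
    have haA : (a : ℕ) ∈ F'.A := (hmemA _).2 a.2
    rw [← hE.2.2] at haA
    rcases haA with h | ⟨_, e, he, hatt⟩
    · rw [h.2] at has; exact absurd has (by decide)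
    · cases hc : compat e a with
      | true => exact hcomp ⟨e, he.1⟩ a hc hatt
      | false => exact hfb ⟨e, he.1⟩ a (hall ⟨e, he.1⟩ he.2 hc) hatt

/-- There is an argumentation framework with the ten arguments `0, …, 9` for which no framework
on the same arguments is conflict-explicit under stable semantics and has the same stable
extensions; hence the answer to Q1 is negative. -/
theorem result :
    (∃ F : AF ℕ, F.A = {n | n < 10} ∧
      ¬ ∃ F' : AF ℕ, F'.A = F.A ∧ ConflictExplicit F' ∧ st F' = st F) ∧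
    ¬ ∀ F : AF ℕ, ∃ F' : AF ℕ, F'.A = F.A ∧ ConflictExplicit F' ∧ st F' = st F :=
  ⟨⟨F₀, rfl, no_explicit⟩, fun h => no_explicit (h F₀)⟩

end Pool.Agent.Results.MP_360586_lc.TenArguments
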